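import Pool.Agent.H73.MG.Conv

set_option autoImplicit false

namespace Pool.Agent.Results.MP_faebd6_lc.Reflection

open Cardinal Set Pool.Agent.H73.MG

universe u

/-- Magidor cardinals reflect exactly through normal measures on `P_k(l)`, and so a supercompact
cardinal coexists with a Magidor cardinal if and only if there is a Magidor cardinal below it. -/
theorem result :
    (∀ k l : Cardinal.{u}, ℵ₀ < k → k ≤ l → ∀ U : Ultrafilter (Set l.ord.ToType),
      IsNormalMeasure k l.ord.ToType U →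
        (IsMagidor l ↔ {x : Set l.ord.ToType | IsMagidor #x} ∈ U) ∧
        ∀ g < k, {x : Set l.ord.ToType | g < #x ∧ #x < k} ∈ U) ∧
    (∀ k : Cardinal.{u}, IsSupercompact k →
      ((∃ l : Cardinal.{u}, IsMagidor l) ↔ ∃ l : Cardinal.{u}, l < k ∧ IsMagidor l) ∧
      ((∃ l : Cardinal.{u}, k ≤ l ∧ IsMagidor l) →
        ∀ g < k, ∃ m : Cardinal.{u}, g < m ∧ m < k ∧ IsMagidor m)) := by
  have h2 : ∀ k : Cardinal.{u}, IsSupercompact k →
      (∃ l : Cardinal.{u}, k ≤ l ∧ IsMagidor l) →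
        ∀ g < k, ∃ m : Cardinal.{u}, g < m ∧ m < k ∧ IsMagidor m := by
    rintro k ⟨hk, hs⟩ ⟨l, hl, hM⟩ g hg
    obtain ⟨U, hU⟩ := hs l.ord.ToType (by simpa using hl)
    obtain ⟨x, hx⟩ := (measure_one hk hl hM U hU hg).exists
    exact ⟨_, hx⟩
  refine ⟨?_, ?_⟩
  · intro k l hk hl U hU
    refine ⟨⟨fun hM => ?_, fun h => conv hk hl U hU h⟩, fun g hg => ?_⟩
    · filter_upwards [measure_one hk hl hM U hU hk] with x hx using hx.2.2
    · filter_upwards [sizes hk hl U hU hg] with x hx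
      exact ⟨(le_max_left _ _).trans_lt hx.1, hx.2⟩
  · intro k hk
    refine ⟨⟨?_, ?_⟩, h2 k hk⟩
    · rintro ⟨l, hM⟩
      rcases lt_or_ge l k with h | h
      · exact ⟨l, h, hM⟩
      · obtain ⟨m, -, hm, hmM⟩ := h2 k hk ⟨l, h, hM⟩ 0 (lt_of_le_of_lt (zero_le) hk.1)
        exact ⟨m, hm, hmM⟩
    · rintro ⟨l, -, hM⟩
      exact ⟨l, hM⟩

end Pool.Agent.Results.MP_faebd6_lc.Reflection
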